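import Pool.Agent.N637.SLX.Stm2
import Pool.Agent.N763.QB.Ff
import Pool.Agent.N875.X15.Conv

set_option autoImplicit false

/-!
# Project SLX (helper637), part LG (helper427): the places not dividing `2 m`
-/

namespace Pool.Agent.N427.SLX

open Pool.Agent.N637.SLX
open Pool.Agent.N637.P21 (Cls)
open Pool.Agent.TH841.SH (LocC pt_pad)
open Pool.Agent.N875.X15 (sq_of_zmod)

section

variable {p : ℕ} [hp : Fact p.Prime]

lemma sqz (hp2 : p ≠ 2) {n : ℤ} (hn : ((n : ℤ) : ZMod p) ≠ 0) (h : IsSquare ((n : ℤ) : ZMod p)) :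
    IsSquare (n : ℚ_[p]) :=
  sq_of_zmod hp2 (fun hd => hn ((ZMod.intCast_zmod_eq_zero_iff_dvd n p).2 hd)) h

/-- an integral point with good reduction outside of the points of order two -/
lemma ptl (hp2 : p ≠ 2) {m d1 d2 X : ℤ}
    (h1 : ((X * (X - 9 * m) * (X + 7 * m) : ℤ) : ZMod p) ≠ 0)
    (h2 : IsSquare ((X * (X - 9 * m) * (X + 7 * m) : ℤ) : ZMod p))
    (hd1 : (d1 : ZMod p) ≠ 0) (hd2 : (d2 : ZMod p) ≠ 0)
    (h3 : IsSquare ((X * d1 : ℤ) : ZMod p)) (h4 : IsSquare (((X - 9 * m) * d2 : ℤ) : ZMod p)) :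
    LocC ℚ_[p] 0 (9 * m) (-7 * m) d1 d2 := by
  obtain ⟨Y, hY⟩ := sqz hp2 h1 h2
  have hX : ((X : ℤ) : ZMod p) ≠ 0 := by
    intro h
    apply h1
    push_cast
    rw [h]; ring
  have hX9 : ((X - 9 * m : ℤ) : ZMod p) ≠ 0 := by
    intro h
    apply h1
    rw [Int.cast_mul, Int.cast_mul, h]; ring
  refine ⟨(X : ℚ_[p]), Y, ?_, ?_, ?_, ?_⟩
  · rintro rfl
    rw [mul_zero] at hY
    have h5 : (X * (X - 9 * m) * (X + 7 * m) : ℤ) = 0 := by exact_mod_cast hY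
    rw [h5] at h1
    exact h1 Int.cast_zero
  · push_cast at hY ⊢
    rw [sq, ← hY]; ring
  · have h5 := sqz hp2 (n := X * d1) (by rw [Int.cast_mul]; exact mul_ne_zero hX hd1) h3
    push_cast at h5 ⊢
    rwa [sub_zero]
  · have h5 := sqz hp2 (n := (X - 9 * m) * d2) (by rw [Int.cast_mul]; exact mul_ne_zero hX9 hd2) h4
    push_cast at h5 ⊢
    exact h5

/-- the places different from `2`, `3`, `7` -/
lemma good (hp2 : p ≠ 2) (hp3 : p ≠ 3) (hp7 : p ≠ 7) {m d1 d2 : ℤ} (hm : ¬ (p : ℤ) ∣ m)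
    (hd1 : ¬ (p : ℤ) ∣ d1) (hd2 : ¬ (p : ℤ) ∣ d2)
    (ht : ∀ d1 d2 : ℤ, d1 ≠ 0 → d2 ≠ 0 →
      (IsSquare (d2 : ℚ_[p]) ∧ (IsSquare (d1 : ℚ_[p]) ∨ IsSquare ((d1 : ℚ_[p]) * m))) ∨
        (IsSquare ((d2 : ℚ_[p]) * (-m)) ∧ (IsSquare ((d1 : ℚ_[p]) * (-7)) ∨
          IsSquare ((d1 : ℚ_[p]) * (-7 * m)))) →
      LocC ℚ_[p] 0 (9 * m) (-7 * m) d1 d2) :
    LocC ℚ_[p] 0 (9 * m) (-7 * m) d1 d2 := by
  have cz : ∀ n : ℤ, ¬ (p : ℤ) ∣ n → ((n : ℤ) : ZMod p) ≠ 0 := fun n hn h =>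
    hn ((ZMod.intCast_zmod_eq_zero_iff_dvd n p).1 h)
  have zm := cz m hm
  have z1 := cz d1 hd1
  have z2 := cz d2 hd2
  have prn : ∀ q : ℕ, q.Prime → p ≠ q → ((q : ℕ) : ZMod p) ≠ 0 := by
    intro q hq hpq h
    rw [ZMod.natCast_eq_zero_iff] at h
    exact hpq ((Nat.prime_dvd_prime_iff_eq hp.out hq).1 h)
  have k2 : (2 : ZMod p) ≠ 0 := by exact_mod_cast prn 2 Nat.prime_two hp2
  have k3 : (3 : ZMod p) ≠ 0 := by exact_mod_cast prn 3 Nat.prime_three hp3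
  have k7 : (7 : ZMod p) ≠ 0 := by exact_mod_cast prn 7 (by norm_num) hp7
  have k9 : (9 : ZMod p) ≠ 0 := by
    have : (9 : ZMod p) = 3 * 3 := by norm_num
    rw [this]; exact mul_ne_zero k3 k3
  have k16 : (16 : ZMod p) ≠ 0 := by
    have : (16 : ZMod p) = 2 * 2 * 2 * 2 := by norm_num
    rw [this]; exact mul_ne_zero (mul_ne_zero (mul_ne_zero k2 k2) k2) k2
  have hab : (0 : ZMod p) ≠ 9 * m := (mul_ne_zero k9 zm).symm
  have hac : (0 : ZMod p) ≠ -7 * m := (mul_ne_zero (neg_ne_zero.2 k7) zm).symm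
  have hbc : (9 * m : ZMod p) ≠ -7 * m := by
    intro h
    have : (16 : ZMod p) * m = 0 := by linear_combination h
    exact mul_ne_zero k16 zm this
  have n1 : d1 ≠ 0 := by rintro rfl; exact hd1 (dvd_zero _)
  have n2 : d2 ≠ 0 := by rintro rfl; exact hd2 (dvd_zero _)
  have sqm : ∀ {x y : ZMod p}, y ≠ 0 → IsSquare (y * y * x) → IsSquare x := by
    rintro x y hy ⟨r, hr⟩
    refine ⟨r / y, ?_⟩
    field_simp
    rw [sq, sq, ← hr]; ring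
  rcases Pool.Agent.N763.QB.all_cases k2 hab hac hbc z1 z2 with
    ⟨x, y, hy, h1, h2, h3⟩ | ⟨h1, h2⟩ | ⟨h1, h2⟩ | ⟨h1, h2⟩ | ⟨h1, h2⟩
  · have hx : (((x.val : ℤ) : ℤ) : ZMod p) = x := by simp
    refine ptl hp2 (X := (x.val : ℤ)) ?_ ?_ z1 z2 ?_ ?_
    · intro h
      push_cast at h hx
      rw [hx] at h
      apply pow_ne_zero 2 hy
      rw [h1]
      linear_combination h
    · refine ⟨y, ?_⟩
      push_cast at hx ⊢
      rw [hx, ← sq, h1]; ring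
    · push_cast at hx ⊢
      rw [hx]; rwa [sub_zero] at h2
    · push_cast at hx ⊢
      rw [hx]; exact h3
  · exact ht d1 d2 n1 n2 (Or.inl ⟨sqz hp2 z2 h2, Or.inl (sqz hp2 z1 h1)⟩)
  · refine ht d1 d2 n1 n2 (Or.inr ⟨?_, Or.inl ?_⟩)
    · have h5 : IsSquare ((d2 * (-m) : ℤ) : ZMod p) := by
        refine sqm (y := 3) k3 ?_
        push_cast
        convert h2 using 1; ring
      have := sqz hp2 (by push_cast; exact mul_ne_zero z2 (neg_ne_zero.2 zm)) h5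
      push_cast at this; exact this
    · have h5 : IsSquare ((d1 * (-7) : ℤ) : ZMod p) := by
        refine sqm (y := 3 * m) (mul_ne_zero k3 zm) ?_
        push_cast
        convert h1 using 1; ring
      have := sqz hp2 (by push_cast; exact mul_ne_zero z1 (neg_ne_zero.2 k7)) h5
      push_cast at this; exact this
  · refine ht d1 d2 n1 n2 (Or.inl ⟨?_, Or.inr ?_⟩)
    · refine sqz hp2 z2 ?_
      refine sqm (y := 3 * 4 * m) (mul_ne_zero (mul_ne_zero k3 ?_) zm) ?_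
      · have : (4 : ZMod p) = 2 * 2 := by norm_num
        rw [this]; exact mul_ne_zero k2 k2
      · convert h2 using 1; ring
    · have h5 : IsSquare ((d1 * m : ℤ) : ZMod p) := by
        refine sqm (y := 3) k3 ?_
        push_cast
        convert h1 using 1; ring
      have := sqz hp2 (by push_cast; exact mul_ne_zero z1 zm) h5
      push_cast at this; exact this
  · refine ht d1 d2 n1 n2 (Or.inr ⟨?_, Or.inr ?_⟩)
    · have h5 : IsSquare ((d2 * (-m) : ℤ) : ZMod p) := by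
        refine sqm (y := 4) ?_ ?_
        · have : (4 : ZMod p) = 2 * 2 := by norm_num
          rw [this]; exact mul_ne_zero k2 k2
        push_cast
        convert h2 using 1; ring
      have := sqz hp2 (by push_cast; exact mul_ne_zero z2 (neg_ne_zero.2 zm)) h5
      push_cast at this; exact this
    · have h5 : IsSquare ((d1 * (-7 * m) : ℤ) : ZMod p) := by
        push_cast
        convert h1 using 1; ring
      have := sqz hp2 (by push_cast; exact mul_ne_zero z1 (mul_ne_zero (neg_ne_zero.2 k7) zm)) h5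
      push_cast at this; exact this

end

instance : Fact (Nat.Prime 7) := ⟨by norm_num⟩

lemma isq3 {n : ℤ} (h : n % 3 = 1) : IsSquare (n : ℚ_[3]) := by
  have e : ((n : ℤ) : ZMod 3) = 1 := by
    rw [← ZMod.intCast_mod n 3]
    have h' : n % ((3 : ℕ) : ℤ) = 1 := by exact_mod_cast h
    rw [h', Int.cast_one]
  exact sqz (by norm_num) (by rw [e]; exact one_ne_zero) (by rw [e]; exact ⟨1, by norm_num⟩)

lemma isq7 {n : ℤ} (h : n % 7 = 1 ∨ n % 7 = 2 ∨ n % 7 = 4) : IsSquare (n : ℚ_[7]) := by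
  have e : ((n : ℤ) : ZMod 7) = 1 ∨ ((n : ℤ) : ZMod 7) = 2 ∨ ((n : ℤ) : ZMod 7) = 4 := by
    have e1 : ((n : ℤ) : ZMod 7) = ((n % 7 : ℤ) : ZMod 7) := (ZMod.intCast_mod n 7).symm
    rw [e1]
    rcases h with h | h | h <;> rw [h] <;> simp
  refine sqz (by norm_num) ?_ ?_
  · rcases e with e | e | e <;> rw [e] <;> decide
  · rcases e with e | e | e <;> rw [e]
    · exact ⟨1, by decide⟩
    · exact ⟨3, by decide⟩
    · exact ⟨2, by decide⟩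

/-- the place `3` -/
lemma at3 {m d1 d2 : ℤ} (hm : m % 3 = 2) (hd1 : ¬ (3 : ℤ) ∣ d1) (hd2 : ¬ (3 : ℤ) ∣ d2)
    (ht : ∀ d1 d2 : ℤ, d1 ≠ 0 → d2 ≠ 0 →
      (IsSquare (d2 : ℚ_[3]) ∧ (IsSquare (d1 : ℚ_[3]) ∨ IsSquare ((d1 : ℚ_[3]) * m))) ∨
        (IsSquare ((d2 : ℚ_[3]) * (-m)) ∧ (IsSquare ((d1 : ℚ_[3]) * (-7)) ∨
          IsSquare ((d1 : ℚ_[3]) * (-7 * m)))) →
      LocC ℚ_[3] 0 (9 * m) (-7 * m) d1 d2)
    (ha : ∀ d1 d2 d3 d4 : ℤ, d1 ≠ 0 → d2 ≠ 0 → d3 ≠ 0 → d4 ≠ 0 →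
      LocC ℚ_[3] 0 (9 * m) (-7 * m) d1 d2 → LocC ℚ_[3] 0 (9 * m) (-7 * m) d3 d4 →
      LocC ℚ_[3] 0 (9 * m) (-7 * m) (d1 * d3) (d2 * d4)) :
    LocC ℚ_[3] 0 (9 * m) (-7 * m) d1 d2 := by
  have hm0 : m ≠ 0 := by rintro rfl; simp at hm
  have n1 : d1 ≠ 0 := by rintro rfl; exact hd1 (dvd_zero _)
  have n2 : d2 ≠ 0 := by rintro rfl; exact hd2 (dvd_zero _)
  have mul3 : ∀ a b : ℤ, a % 3 = 2 → b % 3 = 2 → (a * b) % 3 = 1 := by
    intro a b h1 h2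
    rw [Int.mul_emod, h1, h2]; rfl
  -- the explicit point
  have key : ∀ e1 e2 : ℤ, e1 % 3 = 1 → e2 % 3 = 2 → LocC ℚ_[3] 0 (9 * m) (-7 * m) e1 e2 := by
    intro e1 e2 h1 h2
    obtain ⟨s, hs⟩ := isq3 (n := 2 * m) (mul3 2 m (by norm_num) hm)
    obtain ⟨s1, hs1⟩ := isq3 (n := 2 * m * e1) (by
      rw [Int.mul_emod, mul3 2 m (by norm_num) hm, h1]; rfl)
    obtain ⟨s2, hs2⟩ := isq3 (n := m * e2) (mul3 m e2 hm h2)
    push_cast at hs hs1 hs2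
    have hmq : (m : ℚ_[3]) ≠ 0 := by exact_mod_cast hm0
    have hs0 : s ≠ 0 := by
      rintro rfl
      rw [mul_zero] at hs
      exact mul_ne_zero two_ne_zero hmq hs
    refine ⟨18 * m, 45 * m * s, ?_, ?_, ⟨3 * s1, ?_⟩, ⟨3 * s2, ?_⟩⟩
    · exact mul_ne_zero (mul_ne_zero (by norm_num) hmq) hs0
    · push_cast
      linear_combination (-2025 : ℚ_[3]) * m ^ 2 * hs
    · push_cast
      linear_combination (9 : ℚ_[3]) * hs1
    · push_cast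
      linear_combination (9 : ℚ_[3]) * hs2
  have c1 : d1 % 3 = 1 ∨ d1 % 3 = 2 := by omega
  have c2 : d2 % 3 = 1 ∨ d2 % 3 = 2 := by omega
  rcases c2 with c2 | c2
  · refine ht d1 d2 n1 n2 (Or.inl ⟨isq3 c2, ?_⟩)
    rcases c1 with c1 | c1
    · exact Or.inl (isq3 c1)
    · right
      have := isq3 (mul3 d1 m c1 hm)
      push_cast at this; exact this
  · rcases c1 with c1 | c1
    · exact key d1 d2 c1 c2
    · have h1 := key (-d1) d2 (by omega) c2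
      have h2 : LocC ℚ_[3] 0 (9 * m) (-7 * m) (-1) 1 := by
        refine ht (-1) 1 (by norm_num) one_ne_zero (Or.inl ⟨by simp, Or.inr ?_⟩)
        have := isq3 (mul3 (-1) m (by norm_num) hm)
        push_cast at this; exact_mod_cast this
      have h3 := ha _ _ _ _ (neg_ne_zero.2 n1) n2 (by norm_num) one_ne_zero h1 h2
      rwa [neg_mul_neg, mul_one, mul_one] at h3

/-- the place `7` -/
lemma at7 {m d1 d2 : ℤ} (hm : m % 7 = 1 ∨ m % 7 = 2 ∨ m % 7 = 4) (hsq : Squarefree d1)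
    (hd2 : ¬ (7 : ℤ) ∣ d2) (hj : (7 : ℤ) ∣ d1 ↔ jacobiSym d2 7 = -1)
    (ht : ∀ d1 d2 : ℤ, d1 ≠ 0 → d2 ≠ 0 →
      (IsSquare (d2 : ℚ_[7]) ∧ (IsSquare (d1 : ℚ_[7]) ∨ IsSquare ((d1 : ℚ_[7]) * m))) ∨
        (IsSquare ((d2 : ℚ_[7]) * (-m)) ∧ (IsSquare ((d1 : ℚ_[7]) * (-7)) ∨
          IsSquare ((d1 : ℚ_[7]) * (-7 * m)))) →
      LocC ℚ_[7] 0 (9 * m) (-7 * m) d1 d2)
    (ha : ∀ d1 d2 d3 d4 : ℤ, d1 ≠ 0 → d2 ≠ 0 → d3 ≠ 0 → d4 ≠ 0 →
      LocC ℚ_[7] 0 (9 * m) (-7 * m) d1 d2 → LocC ℚ_[7] 0 (9 * m) (-7 * m) d3 d4 →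
      LocC ℚ_[7] 0 (9 * m) (-7 * m) (d1 * d3) (d2 * d4)) :
    LocC ℚ_[7] 0 (9 * m) (-7 * m) d1 d2 := by
  have n1 : d1 ≠ 0 := hsq.ne_zero
  have n2 : d2 ≠ 0 := by rintro rfl; exact hd2 (dvd_zero _)
  have hm0 : m ≠ 0 := by rintro rfl; simp at hm
  -- residues
  have rr : ∀ a b : ℤ, (a % 7 = 1 ∨ a % 7 = 2 ∨ a % 7 = 4) → (b % 7 = 1 ∨ b % 7 = 2 ∨ b % 7 = 4) →
      ((a * b) % 7 = 1 ∨ (a * b) % 7 = 2 ∨ (a * b) % 7 = 4) := by
    intro a b h1 h2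
    rw [Int.mul_emod]
    rcases h1 with h1 | h1 | h1 <;> rcases h2 with h2 | h2 | h2 <;> rw [h1, h2] <;> decide
  have nn : ∀ a : ℤ, (a % 7 = 3 ∨ a % 7 = 5 ∨ a % 7 = 6) →
      ((-a) % 7 = 1 ∨ (-a) % 7 = 2 ∨ (-a) % 7 = 4) := by intro a h; omega
  -- the class of (-1, 1)
  have key : ∀ e1 e2 : ℤ, (e1 % 7 = 3 ∨ e1 % 7 = 5 ∨ e1 % 7 = 6) → (e2 % 7 = 1 ∨ e2 % 7 = 2 ∨ e2 % 7 = 4) →
      LocC ℚ_[7] 0 (9 * m) (-7 * m) e1 e2 := by
    intro e1 e2 h1 h2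
    obtain ⟨s, hs⟩ := isq7 (n := 60 * (m * m * m)) (rr 60 _ (by norm_num) (rr _ _ (rr _ _ hm hm) hm))
    obtain ⟨s1, hs1⟩ := isq7 (n := m * (-e1)) (rr _ _ hm (nn _ h1))
    obtain ⟨s2, hs2⟩ := isq7 (n := -10 * (m * e2)) (rr _ _ (by norm_num) (rr _ _ hm h2))
    push_cast at hs hs1 hs2
    have hmq : (m : ℚ_[7]) ≠ 0 := by exact_mod_cast hm0
    have hs0 : s ≠ 0 := by
      rintro rfl
      rw [mul_zero] at hs
      exact mul_ne_zero (by norm_num) (mul_ne_zero (mul_ne_zero hmq hmq) hmq) hs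
    refine ⟨-m, s, hs0, ?_, ⟨s1, ?_⟩, ⟨s2, ?_⟩⟩
    · push_cast
      linear_combination -hs
    · push_cast
      linear_combination hs1
    · push_cast
      linear_combination hs2
  have c2 : (d2 % 7 = 1 ∨ d2 % 7 = 2 ∨ d2 % 7 = 4) ∨ (d2 % 7 = 3 ∨ d2 % 7 = 5 ∨ d2 % 7 = 6) := by omega
  have js : jacobiSym d2 7 = jacobiSym (d2 % 7) 7 := by
    have := jacobiSym.mod_left d2 7
    exact this
  rcases c2 with c2 | c2
  · have hj1 : jacobiSym d2 7 = 1 := by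
      rw [js]
      rcases c2 with h | h | h <;> rw [h] <;> norm_num
    have hd1 : ¬ (7 : ℤ) ∣ d1 := by
      rw [hj, hj1]; norm_num
    have c1 : (d1 % 7 = 1 ∨ d1 % 7 = 2 ∨ d1 % 7 = 4) ∨ (d1 % 7 = 3 ∨ d1 % 7 = 5 ∨ d1 % 7 = 6) := by omega
    rcases c1 with c1 | c1
    · exact ht d1 d2 n1 n2 (Or.inl ⟨isq7 c2, Or.inl (isq7 c1)⟩)
    · exact key d1 d2 c1 c2
  · have hj1 : jacobiSym d2 7 = -1 := by
      rw [js]
      rcases c2 with h | h | h <;> rw [h] <;> norm_num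
    obtain ⟨e, he⟩ := hj.2 hj1
    have hne : ¬ (7 : ℤ) ∣ e := by
      rintro ⟨k, hk⟩
      have h1 : (7 : ℤ) * 7 ∣ d1 := ⟨k, by rw [he, hk]; ring⟩
      have h2 := hsq 7 h1
      have h3 := Int.isUnit_iff.1 h2
      omega
    have c1 : (e % 7 = 1 ∨ e % 7 = 2 ∨ e % 7 = 4) ∨ (e % 7 = 3 ∨ e % 7 = 5 ∨ e % 7 = 6) := by omega
    -- the torsion class
    have tor : ∀ e : ℤ, e ≠ 0 → (e % 7 = 3 ∨ e % 7 = 5 ∨ e % 7 = 6) →
        LocC ℚ_[7] 0 (9 * m) (-7 * m) (7 * e) d2 := by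
      intro e he0 h
      refine ht _ _ (mul_ne_zero (by norm_num) he0) n2 (Or.inr ⟨?_, Or.inl ?_⟩)
      · have := isq7 (rr _ _ (nn _ c2) hm)
        push_cast at this
        rw [mul_neg]
        rwa [neg_mul] at this
      · obtain ⟨s, hs⟩ := isq7 (nn _ h)
        push_cast at hs
        refine ⟨7 * s, ?_⟩
        push_cast
        linear_combination (49 : ℚ_[7]) * hs
    have he0 : e ≠ 0 := by rintro rfl; exact hne (dvd_zero _)
    rcases c1 with c1 | c1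
    · have h1 := tor (-e) (neg_ne_zero.2 he0) (by omega)
      have h2 := key (-1) 1 (by norm_num) (by norm_num)
      have h3 := ha _ _ _ _ (mul_ne_zero (by norm_num) (neg_ne_zero.2 he0)) n2 (by norm_num) one_ne_zero h1 h2
      have e1 : 7 * -e * -1 = d1 := by rw [he]; ring
      rwa [e1, mul_one] at h3
    · rw [he]; exact tor e he0 c1

theorem t_LG (hLT : S_LT) : S_LG := by
  intro m hm p hp hp2 hpm d1 d2 hd1 hd2 h7 h2 h77
  have hm0 : m ≠ 0 := hm.neg.ne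
  have triv : ∃ x y : ℚ_[p], y ≠ 0 ∧ y ^ 2 = x * (x - 9 * m) * (x + 7 * m) ∧ IsSquare x ∧
      IsSquare (x - 9 * m) ∧ IsSquare (x + 7 * m) := by
    obtain ⟨x, y, hy, h1, s1, s2, s3⟩ := pt_pad p 0 (9 * m) (-7 * m)
    push_cast at h1 s1 s2 s3
    rw [sub_zero] at h1 s1
    have e : x - -(7 * (m : ℚ_[p])) = x + 7 * m := by ring
    have e' : x - -7 * (m : ℚ_[p]) = x + 7 * m := by ring
    first
      | rw [e] at h1 s3
      | rw [e'] at h1 s3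
    exact ⟨x, y, hy, h1, s1, s2, s3⟩
  obtain ⟨ht, ha⟩ := hLT ℚ_[p] m hm0 triv
  by_cases hp3 : p = 3
  · subst hp3
    refine at3 ?_ (h7 (by norm_num)) h2 ht ha
    have := hm.m3
    have h3 : ¬ (3 : ℤ) ∣ m := hpm
    omega
  by_cases hp7 : p = 7
  · subst hp7
    refine at7 ?_ hd1 h2 (h77 rfl) ht ha
    have := hm.m7
    have h3 : ¬ (7 : ℤ) ∣ m := hpm
    omega
  · exact good hp2 hp3 hp7 hpm (h7 hp7) h2 ht

end Pool.Agent.N427.SLX
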